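import Pool.Agent.Results.MP_e44225_nt.OneExceptionalSet
import Pool.Agent.X123.ML.Base

/-!
# Vojta's inequality for curves with a linear negative error term at ALL points above the good
approximations to almost every target

Let `K` be a number field and `a_1, …, a_q` distinct rational numbers, `q ≥ 3`. The starting result
`OneExceptionalSet` finds a set of at most `C X ^ (2 / q - ν)` of the about `X ^ (2 / q)` elements
`x` of `K` whose truncated counting function `N(x)` is at most `log X`, outside which the inequality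
of the question holds for the points above `x` of ALL curves over ALL number fields, of all degrees,
with the error term `- (2 - κ) h(x)`. We pass from the count to targets: for every map `s` from `K`
to a metric space and `t > 0` there is a set `Z` of Hausdorff dimension `≤ (2 / q - ν) / t` such that
for every `z ∉ Z` ALL elements `x` of `K` with `dist (z, s(x)) ≤ exp (- t N(x))`, with finitely many
exceptions, have this property. Since `N(x) ≤ q log H_K(x) + O(1)`, for every finite dimensional real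
space `F` of dimension `D ≥ 1` there is `η > 0` such that for every map `s : K → F`, for example an
embedding of `K` into `ℝ` or `ℂ`, or the embedding of `K` into the product of its archimedean
completions, for almost all `z ∈ F` ALL `x` in `K` with `|z - s(x)| ≤ H_K(x) ^ (- (2 / D - η))`, with
finitely many exceptions, have this property. By the theorem of Dirichlet in number fields there are
infinitely many `x` with `|z - s(x)| ≤ c H_K(x) ^ (- 2 / D)` for these embeddings.
-/

set_option autoImplicit false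

namespace Pool.Agent.Results.MP_e44225_nt.ApproximationsOutsideOneSet

open Polynomial IsDedekindDomain NumberField MeasureTheory
open Pool.Agent.Results.MP_e44225_nt.OneExceptionalSet (coord height proximity counting logDisc
  canonical Values)

/-- Vojta's inequality with the error term `- (2 - κ) h(x)` for all curves, all number fields and all
degrees at the points above the elements `x` of `T` (conclusions (2a) and (2b) of the starting result
`OneExceptionalSet`, whose definitions are used). Let `k` be a number field, `A` a Dedekind domain,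
finite over `k[t]` and containing it (the ring of functions of a smooth affine curve over `k` which is
finite over the `t`-line), and let `y_{j 0} = t - a_j, y_{j 1}, …` be elements of the radical of the
ideal `(t - a_j)` of `A`, for example generators. Write `g` for
`q - 2 - (∑_j dim (A / (y_{j 0}, y_{j 1}, …))) / N`, where `N` is the rank of `A` over `k[t]`.

First: there is a constant `c` such that for all `x` in `T` all points `P` of the curve with
`t(P) = x`, all number fields `L` containing `k` and `K` over which `P` is defined and all finite sets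
`S` of primes satisfy `m_S(F, P) + g h(x) ≤ d(L) - (2 - κ) h(x) + ∑_{p ∈ S} log p + c`.

Second: for every finite set `S` of primes, all but finitely many of the `x` in `T` satisfy
`m_S(F, P) + g h(x) < d(L) - (2 - κ) h(x)` for all these `P` and `L`. -/
def VojtaOn {K : Type} [Field K] [NumberField K] {q : ℕ} (a : Fin q → ℚ) (κ : ℝ) (T : Set K) :
    Prop :=
  ∀ (k : Type) [Field k] [NumberField k] (A : Type) [CommRing A] [IsDedekindDomain A]
    [Algebra k A] [Algebra k[X] A] [IsScalarTower k k[X] A] [Module.Finite k[X] A]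
    [FaithfulSMul k[X] A] (u : Fin q → ℕ) (y : ∀ j, Fin (u j + 1) → A),
    (∀ j, y j 0 = coord k A - algebraMap k A (algebraMap ℚ k (a j))) →
    (∀ j i, y j i ∈ (Ideal.span {coord k A - algebraMap k A (algebraMap ℚ k (a j))}).radical) →
    (∃ c : ℝ, ∀ x ∈ T,
      ∀ (L : Type) [Field L] [NumberField L] [Algebra K L] [Algebra k L] (φ : A →ₐ[k] L),
        φ (coord k A) = algebraMap K L x → ∀ S : Finset ℕ, (∀ p ∈ S, p.Prime) →
          proximity S y φ + canonical k y * height x ≤
            logDisc L - (2 - κ) * height x + ∑ p ∈ S, Real.log p + c) ∧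
    ∀ S : Finset ℕ, (∀ p ∈ S, p.Prime) → ∃ R : Set K, R.Finite ∧
      ∀ x ∈ T, x ∉ R →
      ∀ (L : Type) [Field L] [NumberField L] [Algebra K L] [Algebra k L] (φ : A →ₐ[k] L),
        φ (coord k A) = algebraMap K L x →
          proximity S y φ + canonical k y * height x < logDisc L - (2 - κ) * height x

/-- the truncated counting function of `[a_1] + … + [a_q]` at `x` -/
noncomputable def size {K : Type} [Field K] [NumberField K] {q : ℕ} (a : Fin q → ℚ) (x : K) : ℝ :=
  counting (fun j => algebraMap ℚ K (a j)) x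

theorem size_nonneg {K : Type} [Field K] [NumberField K] {q : ℕ} (a : Fin q → ℚ) (x : K) :
    0 ≤ size a x := by
  unfold size counting
  refine finsum_nonneg fun v => ?_
  split_ifs
  · exact Real.log_natCast_nonneg _
  · exact le_rfl

/-- the trivial bound of the counting function -/
theorem counting_le {K : Type} [Field K] [NumberField K] {q : ℕ} (a : Fin q → K) {x : K}
    (hx : ∀ j, x ≠ a j) :
    counting a x ≤ ∑ j, (Height.logHeight₁ x + Height.logHeight₁ (a j) +
      Height.totalWeight K * Real.log 2) := by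
  classical
  have hf : ∀ j, Pool.Agent.TH876.KR.form (Pool.Agent.Y728.MN.pt x)
      (Pool.Agent.Y728.MN.pt (a j)) ≠ 0 := fun j => Pool.Agent.Y728.MN.form_pt_ne (hx j)
  obtain ⟨F, hF⟩ : ∃ F : Finset (HeightOneSpectrum (𝓞 K)), F =
      (Finset.univ : Finset (Fin q)).biUnion
        fun j => (Pool.Agent.Y728.MN.nr_fin (hf j)).toFinset := ⟨_, rfl⟩
  have h0 : counting a x ≤ Pool.Agent.Y728.MN.wt F := by
    unfold counting
    rw [finsum_eq_sum_of_support_subset (s := F)]
    · unfold Pool.Agent.Y728.MN.wt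
      refine Finset.sum_le_sum fun v _ => ?_
      split_ifs
      · exact le_rfl
      · exact (Pool.Agent.H951R3.V.ell_pos v).le
    · intro v hv
      rw [Function.mem_support] at hv
      by_contra hcon
      apply hv
      rw [if_neg]
      rintro ⟨j, hj⟩
      apply hcon
      rw [hF, Finset.coe_biUnion, Set.mem_iUnion₂]
      refine ⟨j, Finset.mem_coe.2 (Finset.mem_univ j), ?_⟩
      rw [Finset.mem_coe, Set.Finite.mem_toFinset]
      refine (Pool.Agent.Y728.MN.meet_iff v _ _).1 ((Pool.Agent.Y728.MN.meet_pt v _ _).2 ?_)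
      rw [mul_comm]
      exact hj
  refine h0.trans ?_
  rw [hF]
  refine (Pool.Agent.Y728.MN.wt_biUnion_le _ _).trans ?_
  exact Finset.sum_le_sum fun j _ => Pool.Agent.Y728.MN.wt_nr_le (hf j)

theorem size_le {K : Type} [Field K] [NumberField K] {q : ℕ} (a : Fin q → ℚ) :
    ∃ c : ℝ, 0 ≤ c ∧ ∀ x : K, (∀ j, x ≠ algebraMap ℚ K (a j)) →
      size a x ≤ q * Height.logHeight₁ x + c := by
  refine ⟨|∑ j, (Height.logHeight₁ (algebraMap ℚ K (a j)) + Height.totalWeight K * Real.log 2)|,
    abs_nonneg _, fun x hx => ?_⟩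
  refine (counting_le (fun j => algebraMap ℚ K (a j)) hx).trans ?_
  have h1 : ∑ j, (Height.logHeight₁ x + Height.logHeight₁ (algebraMap ℚ K (a j)) +
      Height.totalWeight K * Real.log 2) = q * Height.logHeight₁ x +
      ∑ j, (Height.logHeight₁ (algebraMap ℚ K (a j)) + Height.totalWeight K * Real.log 2) := by
    simp only [add_assoc]
    rw [Finset.sum_add_distrib, Finset.sum_const, Finset.card_univ, Fintype.card_fin,
      nsmul_eq_mul]
  rw [h1]
  have h2 := le_abs_self (∑ j, (Height.logHeight₁ (algebraMap ℚ K (a j)) +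
    Height.totalWeight K * Real.log 2))
  linarith

/-- the exceptional set of the starting result -/
theorem key (K : Type) [Field K] [NumberField K] (q : ℕ) (hq : 3 ≤ q) (a : Fin q → ℚ)
    (ha : Function.Injective a) {κ : ℝ} (hκ : 0 < κ) :
    ∃ (B : Set K) (ν : ℝ), 0 < ν ∧ ν ≤ 2 / (q : ℝ) ∧
      Pool.Agent.X123.ML.Cnt B (size a) (2 / (q : ℝ) - ν) ∧
      ∀ T : Set K, (∀ x ∈ T, ∀ j, x ≠ algebraMap ℚ K (a j)) → (∀ x ∈ T, x ∉ B) →
        VojtaOn a κ T := by
  obtain ⟨h1, h2⟩ := Pool.Agent.Results.MP_e44225_nt.OneExceptionalSet.result K q hq a ha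
  obtain ⟨E, ⟨ν, C, hν, hC, hE1⟩, -, hE2⟩ := h2 κ hκ
  have hq0 : (0 : ℝ) < q := by
    have : (3 : ℝ) ≤ q := by exact_mod_cast hq
    linarith
  obtain ⟨μ, hμ⟩ : ∃ μ : ℝ, μ = min ν (2 / (q : ℝ)) := ⟨_, rfl⟩
  have hμ0 : 0 < μ := by rw [hμ]; exact lt_min hν (by positivity)
  have hμν : μ ≤ ν := by rw [hμ]; exact min_le_left _ _
  obtain ⟨C₁, hC₁⟩ := (h1 1 one_pos).1
  refine ⟨{x | x ∈ E ∧ ∀ j, x ≠ algebraMap ℚ K (a j)}, μ, hμ0, by rw [hμ]; exact min_le_right _ _,
    ?_, ?_⟩
  · intro δ hδ
    refine ⟨C, fun t ht => ?_⟩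
    have hset : {x | x ∈ {x | x ∈ E ∧ ∀ j, x ≠ algebraMap ℚ K (a j)} ∧ size a x ≤ t} =
        E ∩ Values K a (Real.exp t) := by
      ext x
      constructor
      · rintro ⟨⟨h3, h4⟩, h5⟩
        refine ⟨h3, h4, ?_⟩
        rw [Real.log_exp]
        exact h5
      · rintro ⟨h3, h4, h5⟩
        rw [Real.log_exp] at h5
        exact ⟨⟨h3, h4⟩, h5⟩
    have h3 := hE1 (Real.exp t) (Real.one_le_exp ht)
    rw [hset]
    refine ⟨(hC₁ (Real.exp t) (Real.one_le_exp ht)).1.subset Set.inter_subset_right, h3.trans ?_⟩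
    refine mul_le_mul_of_nonneg_left ?_ hC.le
    rw [← Real.exp_mul]
    apply Real.exp_le_exp.2
    have h4 : (2 / (q : ℝ) - ν) ≤ (2 / (q : ℝ) - μ) + δ := by linarith
    have h5 := mul_le_mul_of_nonneg_left h4 ht
    linarith
  · intro T hT1 hT2 k _ _ A _ _ _ _ _ _ _ u y hy0 hyr
    have hTE : ∀ x ∈ T, x ∉ E := fun x hx hxE => hT2 x hx ⟨hxE, hT1 x hx⟩
    obtain ⟨⟨c, hc⟩, h4⟩ := hE2 k A u y hy0 hyr
    refine ⟨⟨c, fun x hx L _ _ _ _ φ hφ S hS => hc x (hTE x hx) (hT1 x hx) L φ hφ S hS⟩,
      fun S hS => ?_⟩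
    obtain ⟨R, hR1, hR2⟩ := h4 S hS
    exact ⟨R, hR1, fun x hx hxR L _ _ _ _ φ hφ => hR2 x (hTE x hx) hxR (hT1 x hx) L φ hφ⟩

/-- **Vojta's inequality for all curves above the good approximations to almost every target.** Let
`K` be a number field, `a_1, …, a_q` distinct rational numbers, `q ≥ 3`, and `κ > 0`.

(1) There is `ν` with `0 < ν ≤ 2 / q` and the following property. Let `s` be a map from `K` to a metric space and `t > 0`. There is a set `Z` of Hausdorff dimension
at most `(2 / q - ν) / t` such that for every `z ∉ Z` ALL `x` in `K`, different from the `a_j`, with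
`dist (z, s(x)) ≤ exp (- t size(x))`, with finitely many exceptions, satisfy Vojta's inequality with
the error term `- (2 - κ) h(x)` for all curves, all number fields and all degrees.

(2) Let `F` be a real vector space of finite dimension `D ≥ 1`. There is `η > 0` such that for every
map `s : K → F`, for almost all `z ∈ F`, ALL `x` in `K`, different from the `a_j`, with
`|z - s(x)| ≤ H_K(x) ^ (- (2 / D - η))`, with finitely many exceptions, satisfy it. -/
theorem result (K : Type) [Field K] [NumberField K] (q : ℕ) (hq : 3 ≤ q) (a : Fin q → ℚ)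
    (ha : Function.Injective a) (κ : ℝ) (hκ : 0 < κ) :
    (∃ ν : ℝ, 0 < ν ∧ ν ≤ 2 / (q : ℝ) ∧
      ∀ (M : Type) [MetricSpace M] (s : K → M) (t : ℝ), 0 < t → ∃ Z : Set M,
        dimH Z ≤ ENNReal.ofReal ((2 / (q : ℝ) - ν) / t) ∧
        ∀ z : M, z ∉ Z → ∃ R : Set K, R.Finite ∧ VojtaOn a κ
          ({x : K | (∀ j, x ≠ algebraMap ℚ K (a j)) ∧
            dist z (s x) ≤ Real.exp (-(t * size a x))} \ R)) ∧
    ∀ (F : Type) [NormedAddCommGroup F] [NormedSpace ℝ F] [FiniteDimensional ℝ F]
      [MeasurableSpace F] [BorelSpace F] (μ : Measure F) [μ.IsAddHaarMeasure],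
      1 ≤ Module.finrank ℝ F → ∃ η : ℝ, 0 < η ∧ ∀ s : K → F, ∀ᵐ z ∂μ,
        ∃ R : Set K, R.Finite ∧ VojtaOn a κ
          ({x : K | (∀ j, x ≠ algebraMap ℚ K (a j)) ∧
            dist z (s x) ≤ Height.mulHeight₁ x ^ (-(2 / (Module.finrank ℝ F : ℝ) - η))} \ R) := by
  obtain ⟨B, ν, hν, hν2, hcnt, hB⟩ := key K q hq a ha hκ
  have hq0 : (0 : ℝ) < q := by
    have : (3 : ℝ) ≤ q := by exact_mod_cast hq
    linarith
  have hdim : ∀ (M : Type) [MetricSpace M] (s : K → M) (t : ℝ), 0 < t →
      ∃ Z : Set M, dimH Z ≤ ENNReal.ofReal ((2 / (q : ℝ) - ν) / t) ∧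
        ∀ z : M, z ∉ Z → {x | x ∈ B ∧ dist z (s x) ≤ Real.exp (-(t * size a x))}.Finite := by
    intro M _ s t ht
    obtain ⟨Z, hZ1, hZ2⟩ := Pool.Agent.X123.ML.pos_dim (I := Unit) (fun _ => B) (size a)
      (fun _ x _ => size_nonneg a x) (by linarith) ht (fun _ => hcnt) s
    exact ⟨Z, hZ1, fun z hz => hZ2 z hz ()⟩
  refine ⟨⟨ν, hν, hν2, fun M _ s t ht => ?_⟩, ?_⟩
  · obtain ⟨Z, hZ1, hZ2⟩ := hdim M s t ht
    refine ⟨Z, hZ1, fun z hz => ⟨_, hZ2 z hz, hB _ (fun x hx => hx.1.1) fun x hx hxB => ?_⟩⟩
    exact hx.2 ⟨hxB, hx.1.2⟩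
  · intro F _ _ _ _ _ μ _ hD
    obtain ⟨D, hDd⟩ : ∃ D : ℝ, D = (Module.finrank ℝ F : ℝ) := ⟨_, rfl⟩
    have hD1 : 1 ≤ D := by rw [hDd]; exact_mod_cast hD
    have hD0 : 0 < D := by linarith
    rw [← hDd]
    -- the exponent
    obtain ⟨t, htt⟩ : ∃ t : ℝ, t = (2 / (q : ℝ) - ν / 2) / D := ⟨_, rfl⟩
    have hnum : 0 < 2 / (q : ℝ) - ν / 2 := by
      have : 0 < 2 / (q : ℝ) := by positivity
      linarith
    have ht0 : 0 < t := by rw [htt]; positivity
    have htD : t * D = 2 / (q : ℝ) - ν / 2 := by rw [htt, div_mul_cancel₀ _ hD0.ne']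
    have hqt : q * t = 2 / D - q * ν / (2 * D) := by
      rw [htt]
      field_simp
    obtain ⟨η, hη⟩ : ∃ η : ℝ, η = q * ν / (4 * D) := ⟨_, rfl⟩
    have hη0 : 0 < η := by rw [hη]; positivity
    have hqt2 : q * t = 2 / D - 2 * η := by
      rw [hqt, hη]
      field_simp
      ring
    refine ⟨η, hη0, fun s => ?_⟩
    obtain ⟨Z, hZ1, hZ2⟩ := hdim F s t ht0
    have h0 : μ Z = 0 := by
      apply Pool.Agent.X123.ML.null_of_dim
      refine lt_of_le_of_lt hZ1 ?_
      have h2 : ((Module.finrank ℝ F : ℕ) : ENNReal) = ENNReal.ofReal (Module.finrank ℝ F : ℝ) := by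
        simp
      rw [h2, ← hDd]
      refine (ENNReal.ofReal_lt_ofReal_iff hD0).2 ?_
      rw [div_lt_iff₀ ht0, mul_comm, htD]
      linarith
    obtain ⟨c, hc0, hc⟩ := size_le (K := K) a
    have hae : ∀ᵐ z ∂μ, z ∉ Z := by
      rw [ae_iff]
      refine measure_mono_null (fun z hz => ?_) h0
      exact not_not.1 hz
    filter_upwards [hae] with z hz
    -- the elements of small height
    have hsmall : {x : K | Height.logHeight₁ x ≤ t * c / η}.Finite :=
      Northcott.finite_le (h := Height.logHeight₁ (K := K)) _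
    refine ⟨_, (hZ2 z hz).union hsmall, hB _ (fun x hx => hx.1.1) fun x hx hxB => ?_⟩
    obtain ⟨⟨hx1, hx2⟩, hx3⟩ := hx
    apply hx3
    rcases le_or_gt (Height.logHeight₁ x) (t * c / η) with h | h
    · exact Or.inr h
    · refine Or.inl ⟨hxB, hx2.trans ?_⟩
      have hH0 : 0 < Height.mulHeight₁ x := lt_of_lt_of_le one_pos (Height.one_le_mulHeight₁ x)
      rw [div_lt_iff₀ hη0] at h
      rw [Real.rpow_def_of_pos hH0, ← Height.logHeight₁_eq_log_mulHeight₁]
      apply Real.exp_le_exp.2
      have h3 := mul_le_mul_of_nonneg_left (hc x hx1) ht0.le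
      have h4 : t * (q * Height.logHeight₁ x + c) =
          (2 / D - 2 * η) * Height.logHeight₁ x + t * c := by rw [← hqt2]; ring
      rw [h4] at h3
      linarith

end Pool.Agent.Results.MP_e44225_nt.ApproximationsOutsideOneSet
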