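import Pool.Agent.Results.MP_e44225_nt.OneExceptionalSet
import Pool.Agent.Y854.GM.Win

/-!
# The error term in Vojta's inequality for curves: linear and negative at ALL points, of all heights, over the `x` whose
conductor is in windows around thin sequences

Let `K` be a number field and `a_1, …, a_q` distinct rational numbers, `q ≥ 3`. As in the starting result
`OneExceptionalSet` we consider ALL number fields `k`, all smooth projective curves `C` over `k` and all finite maps
`t : C → ℙ¹` over `k` (given by the ring `A` of the functions with poles only over `∞`), unramified outside the fibres over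
the `a_j`: by Belyi's theorem every curve with every reduced divisor `D` has such maps with `D` in the fibres over the `a_j`.
For `x` in `K` different from the `a_j` let the conductor `R(x)` be the product of the norms of the primes of `K` at which `x`
and some `a_j` have the same reduction.

**Theorem.** For every `κ > 0` there is `ν > 0` such that for every sequence `v ≥ 1` of exponent of convergence at most `τ`
(for `v_i = (i + 1) ^ a` this is `1 / a`, for `v_i = b ^ i` it is `0`) and every `ρ < 1` there is ONE set `E ⊂ ℝ` of Hausdorff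
dimension at most `(2 / q - ν + τ) / (1 - ρ)` such that for each `α > 0` outside `E` there is `i₀` such that for ALL `k`, `C`
and `t`, with a constant `c` depending on these data, ALL `x` in `K`, of whatever height, with `|R(x) - α v_i| ≤ v_i ^ ρ` for
some `i ≥ i₀`, all points `P` of `C` over `x`, all number fields `L` containing `k` and `K` over which `P` is defined and all
finite sets `S` of rational primes satisfy
`m_S(F, P) + (deg K_C / N) h(x) ≤ d(L) - (2 - κ) h(x) + ∑_{p ∈ S} log p + c`, and for all `k`, `C`, `t` and `S`, with finitely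
many exceptional `x`, `m_S(F, P) + (deg K_C / N) h(x) < d(L) - (2 - κ) h(x)`.

The set `E` and `i₀` do not depend on the curve, the map, the degree of the points or `S`. The number of the exceptional `x`
with conductor at most `X` is from `OneExceptionalSet`.
-/

set_option autoImplicit false

open NumberField IsDedekindDomain Polynomial

namespace Pool.Agent.Results.MP_e44225_nt.PointsInWindows

open OneExceptionalSet (coord height proximity counting logDisc canonical Values)

/-- the exponent of convergence of the sequence `v` is at most `τ` -/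
def ExpLe (v : ℕ → ℝ) (τ : ℝ) : Prop := ∀ t : ℝ, τ < t → Summable (fun n : ℕ => (v n) ^ (-t))

/-- the conductor of `x` with respect to `a_1, …, a_q`: the product of the norms of the primes at which `x` and some `a_j` have
the same reduction -/
noncomputable def conductor {K : Type} [Field K] [NumberField K] {q : ℕ} (a : Fin q → ℚ) (x : K) : ℝ :=
  Real.exp (counting (fun j => algebraMap ℚ K (a j)) x)

/-- the elements `x` of `K`, of whatever height, different from the `a_j`, whose conductor is in one of the windows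
`[α v_i - v_i ^ ρ, α v_i + v_i ^ ρ]`, `i ≥ i₀` -/
def InWindows (K : Type) [Field K] [NumberField K] {q : ℕ} (a : Fin q → ℚ) (v : ℕ → ℝ) (ρ α : ℝ) (i₀ : ℕ) : Set K :=
  {x | (∀ j, x ≠ algebraMap ℚ K (a j)) ∧ ∃ i : ℕ, i₀ ≤ i ∧ |conductor a x - α * v i| ≤ (v i) ^ ρ}

/-- **Vojta's inequality with a negative linear error term at all points over the `x` with conductor in windows.** Let `K` be a
number field, `a_1, …, a_q` distinct rational numbers, `q ≥ 3`, `κ > 0`. There is `ν > 0` such that for every sequence
`v ≥ 1` of exponent of convergence at most `τ ≥ 0` and every `ρ < 1` there is a set `E ⊂ ℝ` of Hausdorff dimension at most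
`(2 / q - ν + τ) / (1 - ρ)` such that for each `α > 0` outside `E` there is `i₀` such that for all number fields `k`, all
Dedekind domains `A`, finite over `k[t]` and containing it, and all `y_{j 0} = t - a_j, y_{j 1}, …` in the radical of the ideal
`(t - a_j)`:
(a) there is a constant `c` such that for all `x` in `InWindows K a v ρ α i₀`, all points `P` of the curve with `t(P) = x`,
all number fields `L` containing `k` and `K` over which `P` is defined and all finite sets `S` of primes
`m_S(F, P) + g h(x) ≤ d(L) - (2 - κ) h(x) + ∑_{p ∈ S} log p + c`;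
(b) for every finite set `S` of primes, all but finitely many of these `x` satisfy
`m_S(F, P) + g h(x) < d(L) - (2 - κ) h(x)` for all these `P` and `L`.
The sequences `v_i = (i + 1) ^ a` and `v_i = b ^ i` have exponent of convergence at most `1 / a` and `0`. -/
theorem result :
    (∀ (K : Type) [Field K] [NumberField K] (q : ℕ), 3 ≤ q → ∀ (a : Fin q → ℚ), Function.Injective a →
      ∀ κ : ℝ, 0 < κ → ∃ ν : ℝ, 0 < ν ∧ ∀ (v : ℕ → ℝ) (τ ρ : ℝ), (∀ i, 1 ≤ v i) → 0 ≤ τ → ExpLe v τ → ρ < 1 →
      ∃ E : Set ℝ, dimH E ≤ ENNReal.ofReal ((2 / (q : ℝ) - ν + τ) / (1 - ρ)) ∧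
        ∀ α : ℝ, 0 < α → α ∉ E → ∃ i₀ : ℕ,
          ∀ (k : Type) [Field k] [NumberField k] (A : Type) [CommRing A] [IsDedekindDomain A]
            [Algebra k A] [Algebra k[X] A] [IsScalarTower k k[X] A] [Module.Finite k[X] A]
            [FaithfulSMul k[X] A] (u : Fin q → ℕ) (y : ∀ j, Fin (u j + 1) → A),
            (∀ j, y j 0 = coord k A - algebraMap k A (algebraMap ℚ k (a j))) →
            (∀ j i, y j i ∈
              (Ideal.span {coord k A - algebraMap k A (algebraMap ℚ k (a j))}).radical) →
            (∃ c : ℝ, ∀ x ∈ InWindows K a v ρ α i₀,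
              ∀ (L : Type) [Field L] [NumberField L] [Algebra K L] [Algebra k L] (φ : A →ₐ[k] L),
                φ (coord k A) = algebraMap K L x → ∀ S : Finset ℕ, (∀ p ∈ S, p.Prime) →
                  proximity S y φ + canonical k y * height x ≤
                    logDisc L - (2 - κ) * height x + ∑ p ∈ S, Real.log p + c) ∧
            ∀ S : Finset ℕ, (∀ p ∈ S, p.Prime) → ∃ R : Set K, R.Finite ∧
              ∀ x ∈ InWindows K a v ρ α i₀, x ∉ R →
              ∀ (L : Type) [Field L] [NumberField L] [Algebra K L] [Algebra k L] (φ : A →ₐ[k] L),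
                φ (coord k A) = algebraMap K L x →
                  proximity S y φ + canonical k y * height x < logDisc L - (2 - κ) * height x) ∧
    (∀ a : ℝ, 0 < a → ExpLe (fun n : ℕ => ((n : ℝ) + 1) ^ a) (1 / a)) ∧
    (∀ b : ℝ, 1 < b → ExpLe (fun n : ℕ => b ^ n) 0) := by
  refine ⟨fun K _ _ q hq a ha κ hκ => ?_, fun κ hκ => Pool.Agent.Y854.GM.expLe_pow κ hκ,
    fun b hb => Pool.Agent.Y854.GM.expLe_geom b hb⟩
  obtain ⟨h1, h2⟩ := OneExceptionalSet.result K q hq a ha
  obtain ⟨E₀, ⟨ν1, C, hν1, hC, hcount⟩, -, hmain⟩ := h2 κ hκ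
  have hq3 : (3 : ℝ) ≤ q := by exact_mod_cast hq
  have hqp : (0 : ℝ) < q := by linarith
  set ν : ℝ := min ν1 (1 / q) with hν
  have hν0 : 0 < ν := lt_min hν1 (by positivity)
  have hνa : ν ≤ ν1 := min_le_left _ _
  have hνb : ν ≤ 1 / q := min_le_right _ _
  have hs : 0 ≤ 2 / (q : ℝ) - ν := by
    have : 2 / (q : ℝ) = 1 / q + 1 / q := by ring
    have h0 : 0 < 1 / (q : ℝ) := by positivity
    linarith
  refine ⟨ν, hν0, fun v τ ρ hv hτ hE hρ => ?_⟩
  obtain ⟨E, hE1, hE2⟩ := Pool.Agent.Y854.GM.windows
    {x : K | x ∈ E₀ ∧ ∀ j, x ≠ algebraMap ℚ K (a j)} (fun x => conductor a x)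
    (s := 2 / (q : ℝ) - ν) hv hτ hE hs hρ (by
      intro ε hε
      refine ⟨C, fun X hX => ?_⟩
      have hX0 : 0 < X := by linarith
      have hsub : {x : K | x ∈ {x : K | x ∈ E₀ ∧ ∀ j, x ≠ algebraMap ℚ K (a j)} ∧ conductor a x ≤ X} ⊆
          E₀ ∩ Values K a X := by
        rintro x ⟨⟨hx1, hx2⟩, hx3⟩
        refine ⟨hx1, hx2, ?_⟩
        rw [← Real.log_exp (counting (fun j => algebraMap ℚ K (a j)) x)]
        exact Real.log_le_log (Real.exp_pos _) hx3
      obtain ⟨⟨C1, hC1⟩, -⟩ := h1 1 one_pos
      have hfin : (E₀ ∩ Values K a X).Finite := (hC1 X hX).1.subset Set.inter_subset_right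
      refine ⟨hfin.subset hsub, ?_⟩
      calc (({x : K | x ∈ {x : K | x ∈ E₀ ∧ ∀ j, x ≠ algebraMap ℚ K (a j)} ∧ conductor a x ≤ X}.ncard : ℕ) : ℝ)
          ≤ ((E₀ ∩ Values K a X).ncard : ℝ) := by exact_mod_cast Set.ncard_le_ncard hsub hfin
        _ ≤ C * X ^ (2 / (q : ℝ) - ν1) := hcount X hX
        _ ≤ C * X ^ (2 / (q : ℝ) - ν + ε) := by
            apply mul_le_mul_of_nonneg_left _ hC.le
            exact Real.rpow_le_rpow_of_exponent_le hX (by linarith))
  refine ⟨E, hE1, fun α hα hαE => ?_⟩
  obtain ⟨i₀, hi₀⟩ := hE2 α hα hαE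
  have hno : ∀ x ∈ InWindows K a v ρ α i₀, x ∉ E₀ := by
    rintro x ⟨hx, i, hi, hwin⟩ hxE
    have h9 := hi₀ i hi x ⟨hxE, hx⟩
    exact absurd hwin (not_le.2 h9)
  refine ⟨i₀, fun k _ _ A _ _ _ _ _ _ _ u y hy hrad => ?_⟩
  obtain ⟨⟨c, hc⟩, hR⟩ := hmain k A u y hy hrad
  refine ⟨⟨c, fun x hx L _ _ _ _ φ hφ S hS => hc x (hno x hx) hx.1 L φ hφ S hS⟩, fun S hS => ?_⟩
  obtain ⟨R, hR1, hR2⟩ := hR S hS
  exact ⟨R, hR1, fun x hx hxR L _ _ _ _ φ hφ => hR2 x (hno x hx) hxR hx.1 L φ hφ⟩

end Pool.Agent.Results.MP_e44225_nt.PointsInWindows
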