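import Pool.Agent.Results.MP_e44225_nt.OneExceptionalSet
import Pool.Agent.X16.NW.F

/-!
# The error term in Vojta's inequality for curves: linear and negative at ALL points, of all heights, over the `x` whose
conductor is near real powers `t ^ κ_i`, `i ^ t`

The setting is that of the starting result `OneExceptionalSet`: `K` is a number field, `a_1, …, a_q` are distinct rational
numbers, `q ≥ 3`, and we consider ALL number fields `k`, all curves over `k` and all finite maps to the line over `k` (by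
Belyi's theorem every curve has such maps, unramified outside the fibres over the `a_j`, with any given divisor in these
fibres). The conductor `R(x)` of `x ∈ K`, `x ≠ a_j`, is the product of the norms of the primes of `K` at which `x` and some
`a_j` have the same reduction.

We show that for almost all real numbers `t > 1` (all outside a set of small Hausdorff dimension) Vojta's inequality with a
negative linear error term holds at ALL points over the `x` whose conductor satisfies `|R(x) - t ^ κ_i| ≤ t ^ (θ κ_i)`,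
`i` large, and so for `i ^ t` and for all locally expanding families of functions of `t`. The hand-in `PointsInWindows` is
about the linear families `α v_i`.
-/

set_option autoImplicit false

open NumberField IsDedekindDomain Polynomial

namespace Pool.Agent.Results.MP_e44225_nt.PointsNearRealPowers

open Filter Topology MeasureTheory
open OneExceptionalSet (coord height proximity counting logDisc canonical Values)
open Pool.Agent.X16.NW (LocExpanding loc_rpow loc_npow windows_loc null_of_dim)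

/-- the conductor of `x` with respect to `a_1, …, a_q`: the product of the norms of the primes at which `x` and some `a_j` have
the same reduction -/
noncomputable def conductor {K : Type} [Field K] [NumberField K] {q : ℕ} (a : Fin q → ℚ) (x : K) : ℝ :=
  Real.exp (counting (fun j => algebraMap ℚ K (a j)) x)

/-- the elements `x` of `K`, of whatever height, different from the `a_j`, with `|R(x) - w_i| ≤ w_i ^ θ` for some `i ≥ i₀` -/
def Near (K : Type) [Field K] [NumberField K] {q : ℕ} (a : Fin q → ℚ) (θ : ℝ) (w : ℕ → ℝ) (i₀ : ℕ) : Set K :=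
  {x | (∀ j, x ≠ algebraMap ℚ K (a j)) ∧ ∃ i : ℕ, i₀ ≤ i ∧ |conductor a x - w i| ≤ (w i) ^ θ}

/-- Vojta's inequality with the error term `-(2 - κ) h(x)` at all points over the elements of `W`, for all curves: for all
number fields `k`, all Dedekind domains `A`, finite over `k[t]` and containing it, and all `y_{j 0} = t - a_j, y_{j 1}, …` in
the radical of the ideal `(t - a_j)`
(a) there is a constant `c` such that for all `x` in `W`, all points `P` of the curve with `t(P) = x`, all number fields `L`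
containing `k` and `K` over which `P` is defined and all finite sets `S` of primes
`m_S(F, P) + g h(x) ≤ d(L) - (2 - κ) h(x) + ∑_{p ∈ S} log p + c`;
(b) for every finite set `S` of primes, all but finitely many of the `x` in `W` satisfy
`m_S(F, P) + g h(x) < d(L) - (2 - κ) h(x)` for all these `P` and `L`. -/
def Vojta (K : Type) [Field K] [NumberField K] {q : ℕ} (a : Fin q → ℚ) (κ : ℝ) (W : Set K) : Prop :=
  ∀ (k : Type) [Field k] [NumberField k] (A : Type) [CommRing A] [IsDedekindDomain A]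
    [Algebra k A] [Algebra k[X] A] [IsScalarTower k k[X] A] [Module.Finite k[X] A]
    [FaithfulSMul k[X] A] (u : Fin q → ℕ) (y : ∀ j, Fin (u j + 1) → A),
    (∀ j, y j 0 = coord k A - algebraMap k A (algebraMap ℚ k (a j))) →
    (∀ j i, y j i ∈ (Ideal.span {coord k A - algebraMap k A (algebraMap ℚ k (a j))}).radical) →
    (∃ c : ℝ, ∀ x ∈ W,
      ∀ (L : Type) [Field L] [NumberField L] [Algebra K L] [Algebra k L] (φ : A →ₐ[k] L),
        φ (coord k A) = algebraMap K L x → ∀ S : Finset ℕ, (∀ p ∈ S, p.Prime) →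
          proximity S y φ + canonical k y * height x ≤
            logDisc L - (2 - κ) * height x + ∑ p ∈ S, Real.log p + c) ∧
    ∀ S : Finset ℕ, (∀ p ∈ S, p.Prime) → ∃ R : Set K, R.Finite ∧
      ∀ x ∈ W, x ∉ R →
      ∀ (L : Type) [Field L] [NumberField L] [Algebra K L] [Algebra k L] (φ : A →ₐ[k] L),
        φ (coord k A) = algebraMap K L x →
          proximity S y φ + canonical k y * height x < logDisc L - (2 - κ) * height x

/-- `Vojta` for all `t` in `I` outside a set of dimension at most `s`, and the windows around the `f_i(t)`, `i ≥ i₀(t)` -/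
def Most (K : Type) [Field K] [NumberField K] {q : ℕ} (a : Fin q → ℚ) (κ θ : ℝ) (f : ℕ → ℝ → ℝ)
    (I : Set ℝ) (s : ℝ) : Prop :=
  ∃ E : Set ℝ, dimH E ≤ ENNReal.ofReal s ∧ ∀ t ∈ I, t ∉ E → ∃ i₀ : ℕ,
    Vojta K a κ (Near K a θ (fun i => f i t) i₀)

theorem families (K : Type) [Field K] [NumberField K] (q : ℕ) (hq : 3 ≤ q) (a : Fin q → ℚ)
    (ha : Function.Injective a) (κ : ℝ) (hκ : 0 < κ) :
    ∃ ν : ℝ, 0 < ν ∧ ν < 2 / (q : ℝ) ∧ ∀ (θ : ℝ), 0 ≤ θ → θ < 1 → ∀ (f : ℕ → ℝ → ℝ) (I : Set ℝ) (τ : ℝ), 0 ≤ τ →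
      LocExpanding f I τ → Most K a κ θ f I ((2 / (q : ℝ) - ν + τ) / (1 - θ)) := by
  obtain ⟨h1, h2⟩ := OneExceptionalSet.result K q hq a ha
  obtain ⟨E₀, ⟨ν1, C, hν1, hC, hcount⟩, -, hmain⟩ := h2 κ hκ
  have hq3 : (3 : ℝ) ≤ q := by exact_mod_cast hq
  have hqp : (0 : ℝ) < q := by linarith
  set ν : ℝ := min ν1 (1 / q) with hν
  have hν0 : 0 < ν := lt_min hν1 (by positivity)
  have hνa : ν ≤ ν1 := min_le_left _ _
  have hνb : ν ≤ 1 / q := min_le_right _ _
  have h2q : 2 / (q : ℝ) = 1 / q + 1 / q := by ring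
  have h1q : 0 < 1 / (q : ℝ) := by positivity
  have hs : 0 ≤ 2 / (q : ℝ) - ν := by linarith
  refine ⟨ν, hν0, by linarith, fun θ hθ0 hθ1 f I τ hτ hf => ?_⟩
  obtain ⟨E, hE1, hE2⟩ := windows_loc
    {x : K | x ∈ E₀ ∧ ∀ j, x ≠ algebraMap ℚ K (a j)} (fun x => conductor a x)
    (s := 2 / (q : ℝ) - ν) hτ hs hθ0 hθ1 (by
      intro ε hε
      refine ⟨C, fun X hX => ?_⟩
      have hX0 : 0 < X := by linarith
      have hsub : {x : K | x ∈ {x : K | x ∈ E₀ ∧ ∀ j, x ≠ algebraMap ℚ K (a j)} ∧ conductor a x ≤ X} ⊆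
          E₀ ∩ Values K a X := by
        rintro x ⟨⟨hx1, hx2⟩, hx3⟩
        refine ⟨hx1, hx2, ?_⟩
        rw [← Real.log_exp (counting (fun j => algebraMap ℚ K (a j)) x)]
        exact Real.log_le_log (Real.exp_pos _) hx3
      obtain ⟨⟨C1, hC1⟩, -⟩ := h1 1 one_pos
      have hfin : (E₀ ∩ Values K a X).Finite := (hC1 X hX).1.subset Set.inter_subset_right
      refine ⟨hfin.subset hsub, ?_⟩
      calc (({x : K | x ∈ {x : K | x ∈ E₀ ∧ ∀ j, x ≠ algebraMap ℚ K (a j)} ∧ conductor a x ≤ X}.ncard : ℕ) : ℝ)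
          ≤ ((E₀ ∩ Values K a X).ncard : ℝ) := by exact_mod_cast Set.ncard_le_ncard hsub hfin
        _ ≤ C * X ^ (2 / (q : ℝ) - ν1) := hcount X hX
        _ ≤ C * X ^ (2 / (q : ℝ) - ν + ε) := by
            apply mul_le_mul_of_nonneg_left _ hC.le
            exact Real.rpow_le_rpow_of_exponent_le hX (by linarith)) I f hf
  refine ⟨E, hE1, fun t ht htE => ?_⟩
  obtain ⟨i₀, hi₀⟩ := hE2 t ht htE
  have hno : ∀ x ∈ Near K a θ (fun i => f i t) i₀, x ∉ E₀ := by
    rintro x ⟨hx, i, hi, hwin⟩ hxE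
    have h9 := hi₀ i hi x ⟨hxE, hx⟩
    exact absurd hwin (not_le.2 h9)
  refine ⟨i₀, fun k _ _ A _ _ _ _ _ _ _ u y hy hrad => ?_⟩
  obtain ⟨⟨c, hc⟩, hR⟩ := hmain k A u y hy hrad
  refine ⟨⟨c, fun x hx L _ _ _ _ φ hφ S hS => hc x (hno x hx) hx.1 L φ hφ S hS⟩, fun S hS => ?_⟩
  obtain ⟨R, hR1, hR2⟩ := hR S hS
  exact ⟨R, hR1, fun x hx hxR L _ _ _ _ φ hφ => hR2 x (hno x hx) hxR hx.1 L φ hφ⟩

/-- **Theorem.** Let `K` be a number field, `a_1, …, a_q` distinct rational numbers, `q ≥ 3`, `κ > 0`. There is `ν > 0` such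
that for all `0 ≤ θ < 1`, with `s = 2 / q - ν`:
(1) For every locally expanding family `f_i` on `I` with exponent `τ ≥ 0` and all `t ∈ I` outside a set of Hausdorff dimension
at most `(s + τ) / (1 - θ)` there is `i₀` such that Vojta's inequality with the error term `-(2 - κ) h(x)` holds (`Vojta`), for
all curves, at all points over the `x ∈ K`, of whatever height, with `|R(x) - f_i(t)| ≤ f_i(t) ^ θ` for some `i ≥ i₀`.
(2) If `κ_i / log i → ∞` this is so for `t ^ κ_i`, `t > 1`, outside a set of dimension at most `s / (1 - θ)`, and (3) for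
`i ^ t`, `t ≥ b > 0`, outside a set of dimension at most `(s + 1 / b) / (1 - θ)`.
(4) If `s + θ < 1` this is so for `t ^ κ_i` for almost all `t > 1`, and (5) for `i ^ t` for almost all `t > 1 / (1 - s - θ)`. -/
theorem result (K : Type) [Field K] [NumberField K] (q : ℕ) (hq : 3 ≤ q) (a : Fin q → ℚ)
    (ha : Function.Injective a) (κ : ℝ) (hκ : 0 < κ) :
    ∃ ν : ℝ, 0 < ν ∧ ν < 2 / (q : ℝ) ∧ ∀ θ : ℝ, 0 ≤ θ → θ < 1 →
      (∀ (f : ℕ → ℝ → ℝ) (I : Set ℝ) (τ : ℝ), 0 ≤ τ → LocExpanding f I τ →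
        Most K a κ θ f I ((2 / (q : ℝ) - ν + τ) / (1 - θ))) ∧
      (∀ m : ℕ → ℝ, Tendsto (fun i : ℕ => m i / Real.log i) atTop atTop →
        Most K a κ θ (fun i t => t ^ m i) (Set.Ioi 1) ((2 / (q : ℝ) - ν) / (1 - θ))) ∧
      (∀ b : ℝ, 0 < b →
        Most K a κ θ (fun i t => (i : ℝ) ^ t) (Set.Ici b) ((2 / (q : ℝ) - ν + 1 / b) / (1 - θ))) ∧
      (2 / (q : ℝ) - ν + θ < 1 →
        (∀ m : ℕ → ℝ, Tendsto (fun i : ℕ => m i / Real.log i) atTop atTop →
          ∀ᵐ t : ℝ, 1 < t → ∃ i₀ : ℕ, Vojta K a κ (Near K a θ (fun i => t ^ m i) i₀)) ∧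
        (∀ᵐ t : ℝ, 1 / (1 - (2 / (q : ℝ) - ν) - θ) < t →
          ∃ i₀ : ℕ, Vojta K a κ (Near K a θ (fun i => (i : ℝ) ^ t) i₀))) := by
  obtain ⟨ν, hν, hνq, h⟩ := families K q hq a ha κ hκ
  refine ⟨ν, hν, hνq, fun θ hθ0 hθ1 => ?_⟩
  have hpow : ∀ m : ℕ → ℝ, Tendsto (fun i : ℕ => m i / Real.log i) atTop atTop →
        Most K a κ θ (fun i t => t ^ m i) (Set.Ioi 1) ((2 / (q : ℝ) - ν) / (1 - θ)) := by
    intro m hm
    have h1 := h θ hθ0 hθ1 _ _ 0 le_rfl (loc_rpow m hm)
    rwa [add_zero] at h1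
  have hnpow : ∀ b : ℝ, 0 < b →
        Most K a κ θ (fun i t => (i : ℝ) ^ t) (Set.Ici b) ((2 / (q : ℝ) - ν + 1 / b) / (1 - θ)) :=
    fun b hb => h θ hθ0 hθ1 _ _ _ (one_div_pos.2 hb).le (loc_npow b hb)
  refine ⟨h θ hθ0 hθ1, hpow, hnpow, fun hs => ?_⟩
  set s : ℝ := 2 / (q : ℝ) - ν with hsdef
  have hd : 0 < 1 - s - θ := by linarith
  have hae : ∀ {E : Set ℝ} {r : ℝ}, r < 1 → dimH E ≤ ENNReal.ofReal r → ∀ᵐ t : ℝ, t ∉ E := by
    intro E r hr hE
    rw [ae_iff]
    simpa using null_of_dim hr hE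
  refine ⟨fun m hm => ?_, ?_⟩
  · obtain ⟨E, hE, h2⟩ := hpow m hm
    filter_upwards [hae (by rw [div_lt_one (by linarith)]; linarith) hE] with t ht ht1
    exact h2 t ht1 ht
  · have key : ∀ k : ℕ, ∀ᵐ t : ℝ, 1 / (1 - s - θ) + 1 / ((k : ℝ) + 1) ≤ t →
        ∃ i₀ : ℕ, Vojta K a κ (Near K a θ (fun i => (i : ℝ) ^ t) i₀) := by
      intro k
      set b : ℝ := 1 / (1 - s - θ) + 1 / ((k : ℝ) + 1) with hb
      have hb0 : 0 < b := by positivity
      obtain ⟨E, hE, h2⟩ := hnpow b hb0
      have h3 : 1 / b < 1 - s - θ := by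
        rw [div_lt_iff₀ hb0, hb, mul_add, mul_one_div_cancel hd.ne']
        have : 0 < (1 - s - θ) * (1 / ((k : ℝ) + 1)) := by positivity
        linarith
      filter_upwards [hae (by rw [div_lt_one (by linarith)]; linarith) hE] with t ht ht1
      exact h2 t ht1 ht
    filter_upwards [ae_all_iff.2 key] with t ht ht1
    obtain ⟨k, hk⟩ := exists_nat_one_div_lt (sub_pos.2 ht1)
    exact ht k (by linarith)

end Pool.Agent.Results.MP_e44225_nt.PointsNearRealPowers
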