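import Pool.Agent.X61.RI.Sum
import Pool.Agent.Y911.US.Prox

/-!
# Vojta's inequality on the line for the points integral outside an infinite random set of primes

`K` is a number field of degree `d`, `D` is the sum of `q ≥ 3` distinct points `α_1, …, α_q` of
the projective line over `K`, `S₀` is a finite set of primes of `K` and `T` is a random set of
primes: the events `v ∈ T` are independent, of probability at most `N(v) ^ (-τ)`. (For
probabilities `N(v) ^ (-τ)`, `τ ≤ 1`, the set `T` is infinite.) We consider the points of the line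
over `K`, of all heights, which meet `D` only at primes of `S₀ ∪ T`, ordered by their conductor,
the product of the norms of the primes at which they meet `D`. All heights and proximity functions
are absolute (divided by `d`).

1. If `σ ≥ 0` and `σ + τ > 2/q`, then almost surely there are `O(X ^ σ)` of these points with
   conductor at most `X`; if `τ > 2/q`, there are only finitely many.
2. For every `κ > 0` there is `ν > 0` such that, if `σ ≥ 0` and `σ + τ > 2/q - ν`, almost surely all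
   but `O(X ^ σ)` of the points with conductor at most `X` satisfy
   `h_K(x) + m_S(D, x) ≤ -(2 - κ) h(x) + ∑_{v ∈ S} log N(v) / d + c` for all finite sets `S` of
   primes; if `τ > 2/q - ν`, all but finitely many do.
-/

set_option autoImplicit false

namespace Pool.Agent.Results.MP_e44225_nt.RandomPlaces

open NumberField IsDedekindDomain MeasureTheory ProbabilityTheory
open Pool.Agent.H691R3 Pool.Agent.TH876.Loc Pool.Agent.Y911.RR
open Pool.Agent.TH876.KR (form counting m2)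

section Defs

variable {K : Type} [Field K] [NumberField K]

/-- the absolute logarithmic height (the height of Mathlib is relative to `K`) -/
noncomputable def height (x : Fin 2 → K) : ℝ :=
  Height.logHeight x / (Module.finrank ℚ K : ℝ)

/-- the Weil function of the point `a` at the point `x` for the absolute value `p` -/
noncomputable def lam (p : K → ℝ) (a x : Fin 2 → K) : ℝ :=
  Real.log (max (p (x 0)) (p (x 1)) * max (p (a 0)) (p (a 1)) / p (x 0 * a 1 - x 1 * a 0))

/-- the proximity function `m_S(D, x)`, `D = ∑ α_l`, where `S` consists of the infinite places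
and the primes of `T` -/
noncomputable def prox (T : Set (HeightOneSpectrum (𝓞 K))) {q : ℕ} (α : Fin q → Fin 2 → K)
    (x : Fin 2 → K) : ℝ :=
  (∑ w : InfinitePlace K, (w.mult : ℝ) * ∑ l : Fin q, lam w (α l) x +
    ∑ᶠ (v : HeightOneSpectrum (𝓞 K)) (_ : v ∈ T), ∑ l : Fin q, lam (FinitePlace.mk v) (α l) x) /
      (Module.finrank ℚ K : ℝ)

/-- the primes at which the point `x` meets `D = ∑ α_l` (has the same reduction as an `α_l`) -/
def meets {q : ℕ} (α : Fin q → Fin 2 → K) (x : Fin 2 → K) : Set (HeightOneSpectrum (𝓞 K)) :=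
  {v | ∃ l, FinitePlace.mk v (x 0 * α l 1 - x 1 * α l 0) <
    max (FinitePlace.mk v (x 0)) (FinitePlace.mk v (x 1)) *
      max (FinitePlace.mk v (α l 0)) (FinitePlace.mk v (α l 1))}

/-- the conductor of `x` relative to `D` -/
noncomputable def cond {q : ℕ} (α : Fin q → Fin 2 → K) (x : Fin 2 → K) : ℝ :=
  ∏ᶠ (v : HeightOneSpectrum (𝓞 K)) (_ : v ∈ meets α x), (Ideal.absNorm v.asIdeal : ℝ)

/-- the points off `D` which meet `D` only at primes of `U` -/
def integralPoints (U : Set (HeightOneSpectrum (𝓞 K))) {q : ℕ} (α : Fin q → Fin 2 → K) :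
    Set (Projectivization K (Fin 2 → K)) :=
  {P | ∃ (x : Fin 2 → K) (hx : x ≠ 0), P = Projectivization.mk K x hx ∧
    (∀ l, x 0 * α l 1 - x 1 * α l 0 ≠ 0) ∧ meets α x ⊆ U}

/-- the points with conductor at most `X` -/
def below {q : ℕ} (α : Fin q → Fin 2 → K) (X : ℝ) : Set (Projectivization K (Fin 2 → K)) :=
  {P | ∃ (x : Fin 2 → K) (hx : x ≠ 0), P = Projectivization.mk K x hx ∧ cond α x ≤ X}

/-- Vojta's inequality at `P` for all finite sets `S` of primes, with the error term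
`-(2 - κ) h(x) + ∑_{v ∈ S} log N(v) / d + c` -/
def Holds {q : ℕ} (α : Fin q → Fin 2 → K) (κ c : ℝ) (P : Projectivization K (Fin 2 → K)) : Prop :=
  ∀ (x : Fin 2 → K) (hx : x ≠ 0), P = Projectivization.mk K x hx →
    ∀ S : Finset (HeightOneSpectrum (𝓞 K)),
      -2 * height x + prox (S : Set (HeightOneSpectrum (𝓞 K))) α x ≤ -(2 - κ) * height x +
        (∑ v ∈ S, Real.log (Ideal.absNorm v.asIdeal : ℝ)) / (Module.finrank ℚ K : ℝ) + c

end Defs

open Pool.Agent.Y911.US (dvs dvs_inj offp ht ht_mk ne_zero_of form_iff)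

variable {K : Type} [Field K] [NumberField K] {q : ℕ}

theorem mem_sp {α : Fin q → Fin 2 → K} (h : ∀ l, α l ≠ 0) {x : Fin 2 → K} (hx : x ≠ 0)
    (hf : ∀ i, form (α i) x ≠ 0) (v : Pr K) :
    v ∈ spA (dvs α h) (offp h hx hf) ↔ v ∈ meets α x := by
  rw [mem_spA]
  refine exists_congr fun l => ?_
  exact meet_mk v hx (h l)

theorem cond_eq {α : Fin q → Fin 2 → K} (h : ∀ l, α l ≠ 0) {x : Fin 2 → K} (hx : x ≠ 0)
    (hf : ∀ i, form (α i) x ≠ 0) : cond α x = nn (spA (dvs α h) (offp h hx hf)) := by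
  unfold cond nn
  rw [← finprod_mem_coe_finset]
  refine finprod_mem_congr ?_ fun v _ => rfl
  ext v
  rw [Finset.mem_coe, mem_sp]

omit [NumberField K] in
theorem form_ne_of {x y : Fin 2 → K} (hx : x ≠ 0) (hy : y ≠ 0)
    (h : Projectivization.mk K x hx ≠ Projectivization.mk K y hy) : form x y ≠ 0 := by
  have h1 := form_rep_ne h
  obtain ⟨a, ha⟩ := Projectivization.exists_smul_eq_mk_rep K x hx
  obtain ⟨b, hb⟩ := Projectivization.exists_smul_eq_mk_rep K y hy
  rw [← ha, ← hb] at h1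
  have e1 : (a • x : Fin 2 → K) = (a : K) • x := rfl
  have e2 : (b • y : Fin 2 → K) = (b : K) • y := rfl
  rw [e1, e2, form_smul] at h1
  exact right_ne_zero_of_mul h1

theorem form_ne {α : Fin q → Fin 2 → K} (h : ∀ l, α l ≠ 0) (t : Off (dvs α h))
    {x : Fin 2 → K} (hx : x ≠ 0) (e : t.1 = Projectivization.mk K x hx) (l : Fin q) :
    form (α l) x ≠ 0 := by
  refine form_ne_of (h l) hx fun h' => t.2 l ?_
  rw [e, ← h']
  rfl

/-- Vojta's inequality from the lower bound for the conductor -/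
theorem vojta {α : Fin q → Fin 2 → K} (h : ∀ l, α l ≠ 0) {κ : ℝ} (t : Off (dvs α h))
    (hκ : ((q : ℝ) - κ) * ht t.1 < Real.log (nn (spA (dvs α h) t))) :
    Holds α κ ((∑ l : Fin q, Height.logHeight (α l)) / (Module.finrank ℚ K : ℝ)) t.1 := by
  classical
  intro x hx e S
  have hd : (0 : ℝ) < Module.finrank ℚ K := by
    exact_mod_cast (Module.finrank_pos (R := ℚ) (M := K))
  have hf := form_ne h t hx e
  have et : t = offp h hx hf := Subtype.ext e
  have h1 := Pool.Agent.Y911.US.fmt_le (S : Set (Pr K)) h hx hf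
  have h2 := Pool.Agent.Y911.US.log_rs_le h hx hf S ⊤
  have hadj : adj (S : Set (Pr K)) (⊤ : Ideal (𝓞 K)) = S := by
    unfold adj
    refine Set.union_eq_left.2 fun v hv => ?_
    exact absurd (top_le_iff.1 hv) v.isPrime.ne_top
  rw [hadj] at h2
  set s := spA (dvs α h) (offp h hx hf) with hs
  have h3 : nn s ≤ nn S * nn (Pool.Agent.Y911.US.rs S ⊤ s) := by
    have hsub : s ⊆ S ∪ (Pool.Agent.Y911.US.rs S ⊤ s) := by
      intro v hv
      by_cases hvS : v ∈ S
      · exact Finset.mem_union_left _ hvS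
      · refine Finset.mem_union_right _ ?_
        unfold Pool.Agent.Y911.US.rs
        rw [Finset.mem_filter]
        refine ⟨hv, fun h' => ?_⟩
        rcases h' with h' | h'
        · exact hvS h'
        · exact v.isPrime.ne_top (top_le_iff.1 h')
    refine (nn_mono hsub).trans ?_
    rw [← Finset.union_sdiff_self_eq_union, nn_union Finset.disjoint_sdiff]
    exact mul_le_mul_of_nonneg_left (nn_mono Finset.sdiff_subset) (nn_pos _).le
  have h4 : Real.log (nn s) ≤ Real.log (nn S) +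
      Real.log (nn (Pool.Agent.Y911.US.rs S ⊤ s)) := by
    rw [← Real.log_mul (nn_pos _).ne' (nn_pos _).ne']
    exact Real.log_le_log (nn_pos _) h3
  have h5 : ht t.1 = (Module.finrank ℚ K : ℝ) * height x := by
    rw [e, ht_mk]
    unfold height
    rw [mul_div_cancel₀ _ hd.ne']
  have h6 : Real.log (nn S) = ∑ v ∈ S, Real.log (Ideal.absNorm v.asIdeal : ℝ) := by
    unfold nn
    exact Real.log_prod fun v _ => (Nv_pos v).ne'
  rw [et] at hκ h5
  rw [h5] at hκ
  have h7 : ((q : ℝ) - κ) * ((Module.finrank ℚ K : ℝ) * height x) -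
      ∑ v ∈ S, Real.log (Ideal.absNorm v.asIdeal : ℝ) ≤
      (Module.finrank ℚ K : ℝ) * Pool.Agent.Y911.US.trunc (S : Set (Pr K)) α x := by
    rw [← h6]
    linarith
  have h8 : ((q : ℝ) - κ) * height x -
      (∑ v ∈ S, Real.log (Ideal.absNorm v.asIdeal : ℝ)) / (Module.finrank ℚ K : ℝ) ≤
      Pool.Agent.Y911.US.trunc (S : Set (Pr K)) α x := by
    rw [← mul_le_mul_iff_right₀ hd]
    refine le_trans (le_of_eq ?_) h7
    field_simp
  have h9 : Pool.Agent.Y911.US.prox (S : Set (Pr K)) α x =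
      prox (S : Set (HeightOneSpectrum (𝓞 K))) α x := rfl
  have h10 : Pool.Agent.Y911.US.height x = height x := rfl
  rw [h9, h10] at h1
  linarith

/-- the points as a subset of the points off the divisor -/
theorem sub_image {α : Fin q → Fin 2 → K} (h : ∀ l, α l ≠ 0)
    (U : Set (HeightOneSpectrum (𝓞 K))) (X : ℝ) (p : Off (dvs α h) → Prop) :
    {P | P ∈ integralPoints U α ∧ ∃ t : Off (dvs α h), t.1 = P ∧ p t} ∩ below α X ⊆
      Subtype.val '' {t : Off (dvs α h) | ((∀ v ∈ spA (dvs α h) t, v ∈ U) ∧ p t) ∧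
        nn (spA (dvs α h) t) ≤ X} := by
  rintro P ⟨⟨⟨x, hx, e, hne, hU⟩, t, ht, hp⟩, y, hy, ey, hX⟩
  have e' : t.1 = Projectivization.mk K x hx := ht.trans e
  have et : t = offp h hx (form_ne h t hx e') := Subtype.ext e'
  have e'' : t.1 = Projectivization.mk K y hy := ht.trans ey
  have et' : t = offp h hy (form_ne h t hy e'') := Subtype.ext e''
  refine ⟨t, ⟨⟨fun v hv => hU ?_, hp⟩, ?_⟩, ht⟩
  · rw [et, mem_sp] at hv
    exact hv
  · rw [cond_eq h hy (form_ne h t hy e''), ← et'] at hX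
    exact hX

theorem off_of_integral {α : Fin q → Fin 2 → K} (h : ∀ l, α l ≠ 0)
    {U : Set (HeightOneSpectrum (𝓞 K))} {P : Projectivization K (Fin 2 → K)}
    (hP : P ∈ integralPoints U α) : ∃ t : Off (dvs α h), t.1 = P := by
  obtain ⟨x, hx, e, hne, -⟩ := hP
  exact ⟨offp h hx ((form_iff α x).1 hne), e.symm⟩

/-- counting a family of points -/
theorem count_family {α : Fin q → Fin 2 → K} (h : ∀ l, α l ≠ 0) (S₀ : Finset (Pr K))
    {σ τ : ℝ} (hσ : 0 ≤ σ) (hτ : 0 ≤ τ) (p : Off (dvs α h) → Prop)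
    (hD : ∃ D : ℝ, 0 < D ∧ ∀ F : Finset {t : Off (dvs α h) // p t},
      ∑ t ∈ F, (nn (spA (dvs α h) t.1)) ^ (-(σ + τ)) ≤ D)
    {Ω : Type} [MeasurableSpace Ω] {μ : Measure Ω} {E : HeightOneSpectrum (𝓞 K) → Set Ω}
    (hm : ∀ v, MeasurableSet (E v)) (hi : iIndepSet E μ)
    (hE : ∀ v, μ (E v) ≤ ENNReal.ofReal ((Ideal.absNorm v.asIdeal : ℝ) ^ (-τ))) :
    ∀ᵐ ω ∂μ, (∃ C : ℝ, ∀ X : ℝ, 1 ≤ X →
      ({P | P ∈ integralPoints ((S₀ : Set (Pr K)) ∪ {v | ω ∈ E v}) α ∧
        ∃ t : Off (dvs α h), t.1 = P ∧ p t} ∩ below α X).Finite ∧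
      (({P | P ∈ integralPoints ((S₀ : Set (Pr K)) ∪ {v | ω ∈ E v}) α ∧
        ∃ t : Off (dvs α h), t.1 = P ∧ p t} ∩ below α X).ncard : ℝ) ≤ C * X ^ σ) ∧
      (σ = 0 → {P | P ∈ integralPoints ((S₀ : Set (Pr K)) ∪ {v | ω ∈ E v}) α ∧
        ∃ t : Off (dvs α h), t.1 = P ∧ p t}.Finite) := by
  classical
  obtain ⟨D, hD0, hD⟩ := hD
  have hsum := Pool.Agent.X61.RI.fam_sum (μ := μ) (E := E)
    (fun t : {t : Off (dvs α h) // p t} => spA (dvs α h) t.1) S₀ hτ hD hi hm hE
  filter_upwards [hsum] with ω hω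
  obtain ⟨C, hC⟩ := hω
  set U : Set (Pr K) := (S₀ : Set (Pr K)) ∪ {v | ω ∈ E v} with hU
  have hcount : ∀ X : ℝ, 1 ≤ X →
      ({P | P ∈ integralPoints U α ∧ ∃ t : Off (dvs α h), t.1 = P ∧ p t} ∩ below α X).Finite ∧
      (({P | P ∈ integralPoints U α ∧
        ∃ t : Off (dvs α h), t.1 = P ∧ p t} ∩ below α X).ncard : ℝ) ≤ C * X ^ σ := by
    intro X hX
    obtain ⟨k1, k2⟩ := Pool.Agent.X61.RI.count_of_sum
      (f := fun t : {t : Off (dvs α h) // p t} => nn (spA (dvs α h) t.1))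
      (fun t => one_le_nn _) hσ
      (p := fun t => ∀ v ∈ spA (dvs α h) t.1, v ∈ S₀ ∨ ω ∈ E v) hC hX
    have hsub : {P | P ∈ integralPoints U α ∧ ∃ t : Off (dvs α h), t.1 = P ∧ p t} ∩ below α X ⊆
        (fun t : {t : Off (dvs α h) // p t} => t.1.1) ''
          {t | (∀ v ∈ spA (dvs α h) t.1, v ∈ S₀ ∨ ω ∈ E v) ∧ nn (spA (dvs α h) t.1) ≤ X} := by
      refine (sub_image h U X p).trans ?_
      rintro P ⟨t, ⟨⟨h1, h2⟩, h3⟩, rfl⟩
      exact ⟨⟨t, h2⟩, ⟨h1, h3⟩, rfl⟩
    have hfin := k1.image (fun t : {t : Off (dvs α h) // p t} => t.1.1)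
    refine ⟨hfin.subset hsub, le_trans ?_ k2⟩
    exact_mod_cast (Set.ncard_le_ncard hsub hfin).trans (Set.ncard_image_le k1)
  refine ⟨⟨C, hcount⟩, fun hσ0 => ?_⟩
  by_contra hinf
  obtain ⟨F, hF, hcard⟩ := Set.Infinite.exists_subset_card_eq hinf (⌊C⌋₊ + 1)
  -- all points of `F` are below some `X`
  have hex : ∀ P ∈ F, ∃ X : ℝ, 1 ≤ X ∧ P ∈ below α X := by
    intro P hP
    obtain ⟨⟨x, hx, e, -⟩, -⟩ := hF hP
    exact ⟨max 1 (cond α x), le_max_left _ _, x, hx, e, le_max_right _ _⟩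
  choose! Xf hX1 hX2 using hex
  set X : ℝ := 1 + ∑ P ∈ F, |Xf P| with hX
  have hXle : ∀ P ∈ F, Xf P ≤ X := by
    intro P hP
    have h1 : |Xf P| ≤ ∑ P ∈ F, |Xf P| :=
      Finset.single_le_sum (f := fun P => |Xf P|) (fun _ _ => abs_nonneg _) hP
    have h2 := le_abs_self (Xf P)
    linarith
  have hX1' : 1 ≤ X := by
    have : 0 ≤ ∑ P ∈ F, |Xf P| := Finset.sum_nonneg fun _ _ => abs_nonneg _
    linarith
  obtain ⟨k1, k2⟩ := hcount X hX1'
  rw [hσ0, Real.rpow_zero, mul_one] at k2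
  have hFsub : (F : Set (Projectivization K (Fin 2 → K))) ⊆
      {P | P ∈ integralPoints U α ∧ ∃ t : Off (dvs α h), t.1 = P ∧ p t} ∩ below α X := by
    intro P hP
    refine ⟨hF hP, ?_⟩
    obtain ⟨x, hx, e, hc⟩ := hX2 P hP
    exact ⟨x, hx, e, hc.trans (hXle P hP)⟩
  have k3 := Set.ncard_le_ncard hFsub k1
  rw [Set.ncard_coe_finset, hcard] at k3
  have k4 : ((⌊C⌋₊ + 1 : ℕ) : ℝ) ≤ C := le_trans (by exact_mod_cast k3) k2
  push_cast at k4
  exact absurd k4 (not_le.2 (Nat.lt_floor_add_one _))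

/-- **Vojta's inequality for the points integral outside an infinite random set of primes.** Let
`K` be a number field of degree `d`, `S₀` a finite set of primes, `D` the sum of `q ≥ 3` distinct
points `α l` of the line over `K`.

(1) Let `σ, τ ≥ 0` and `σ + τ > 2/q`. Let `T = {v | ω ∈ E v}` be a random set of primes, where the
events `E v` are independent and of probability at most `N(v) ^ (-τ)`. Almost surely, for all
`X ≥ 1` at most `C X ^ σ` of the points which meet `D` only at primes of `S₀ ∪ T` have conductor at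
most `X`, and if `σ = 0` the set of these points is finite.

(2) For every `κ > 0` there are `ν > 0` and `c` such that for `σ, τ ≥ 0` with `σ + τ > 2/q - ν` and
every such random set `T` almost surely there is a set `Z` of points, at most `C X ^ σ` of which
have conductor at most `X` for all `X ≥ 1`, and which is finite if `σ = 0`, such that all points
which meet `D` only at primes of `S₀ ∪ T` and are not in `Z` satisfy
`h_K(x) + m_S(D, x) ≤ -(2 - κ) h(x) + ∑_{v ∈ S} log N(v) / d + c` for all finite sets `S` of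
primes. -/
theorem result (K : Type) [Field K] [NumberField K] (S₀ : Set (HeightOneSpectrum (𝓞 K)))
    (hS : S₀.Finite) (q : ℕ) (hq : 3 ≤ q) (α : Fin q → Fin 2 → K)
    (hα : ∀ i j, i ≠ j → α i 0 * α j 1 - α i 1 * α j 0 ≠ 0) :
    (∀ σ τ : ℝ, 0 ≤ σ → 0 ≤ τ → 2 / (q : ℝ) < σ + τ →
      ∀ (Ω : Type) [MeasurableSpace Ω] (μ : Measure Ω) (E : HeightOneSpectrum (𝓞 K) → Set Ω),
      (∀ v, MeasurableSet (E v)) → iIndepSet E μ →
      (∀ v, μ (E v) ≤ ENNReal.ofReal ((Ideal.absNorm v.asIdeal : ℝ) ^ (-τ))) →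
      ∀ᵐ ω ∂μ, (∃ C : ℝ, ∀ X : ℝ, 1 ≤ X →
        (integralPoints (S₀ ∪ {v | ω ∈ E v}) α ∩ below α X).Finite ∧
        ((integralPoints (S₀ ∪ {v | ω ∈ E v}) α ∩ below α X).ncard : ℝ) ≤ C * X ^ σ) ∧
        (σ = 0 → (integralPoints (S₀ ∪ {v | ω ∈ E v}) α).Finite)) ∧
    (∀ κ : ℝ, 0 < κ → ∃ ν c : ℝ, 0 < ν ∧
      ∀ σ τ : ℝ, 0 ≤ σ → 0 ≤ τ → 2 / (q : ℝ) - ν < σ + τ →
      ∀ (Ω : Type) [MeasurableSpace Ω] (μ : Measure Ω) (E : HeightOneSpectrum (𝓞 K) → Set Ω),
      (∀ v, MeasurableSet (E v)) → iIndepSet E μ →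
      (∀ v, μ (E v) ≤ ENNReal.ofReal ((Ideal.absNorm v.asIdeal : ℝ) ^ (-τ))) →
      ∀ᵐ ω ∂μ, ∃ Z : Set (Projectivization K (Fin 2 → K)),
        (∃ C : ℝ, ∀ X : ℝ, 1 ≤ X → (Z ∩ below α X).Finite ∧
          ((Z ∩ below α X).ncard : ℝ) ≤ C * X ^ σ) ∧ (σ = 0 → Z.Finite) ∧
        ∀ P ∈ integralPoints (S₀ ∪ {v | ω ∈ E v}) α, P ∉ Z → Holds α κ c P) := by
  classical
  have h := ne_zero_of hq α hα
  have hA := dvs_inj h fun i j hij => hα i j hij
  refine ⟨fun σ τ hσ hτ hστ Ω _ μ E hm hi hE => ?_, fun κ hκ => ?_⟩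
  · obtain ⟨D, hD, hb⟩ := off_dec hq (dvs α h) hA (σ + τ) hστ
    have hfam := count_family h hS.toFinset hσ hτ (fun _ => True)
      ⟨D, hD, fun F => by
        have h1 := hb (F.image fun t => t.1)
        rw [Finset.sum_image fun a _ b _ hab => Subtype.ext hab] at h1
        exact h1⟩ hm hi hE
    filter_upwards [hfam] with ω hω
    rw [hS.coe_toFinset] at hω
    have e : {P | P ∈ integralPoints (S₀ ∪ {v | ω ∈ E v}) α ∧
        ∃ t : Off (dvs α h), t.1 = P ∧ True} = integralPoints (S₀ ∪ {v | ω ∈ E v}) α := by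
      ext P
      constructor
      · exact fun h' => h'.1
      · intro hP
        obtain ⟨t, ht⟩ := off_of_integral h hP
        exact ⟨hP, t, ht, trivial⟩
    rw [e] at hω
    exact hω
  · obtain ⟨ν, hν, hdec⟩ := Pool.Agent.X61.RI.exc_dec hq (dvs α h) hA hκ
    refine ⟨ν, (∑ l : Fin q, Height.logHeight (α l)) / (Module.finrank ℚ K : ℝ), hν, ?_⟩
    intro σ τ hσ hτ hστ Ω _ μ E hm hi hE
    have hfam := count_family h hS.toFinset hσ hτ
      (fun t => Real.log (nn (spA (dvs α h) t)) ≤ ((q : ℝ) - κ) * ht t.1)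
      (hdec (σ + τ) hστ) hm hi hE
    filter_upwards [hfam] with ω hω
    rw [hS.coe_toFinset] at hω
    refine ⟨_, hω.1, hω.2, fun P hP hPZ => ?_⟩
    obtain ⟨t, rfl⟩ := off_of_integral h hP
    refine vojta h t (not_le.1 fun hle => hPZ ⟨hP, t, rfl, hle⟩)

end Pool.Agent.Results.MP_e44225_nt.RandomPlaces
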